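import Pool.Agent.Work.MP_3ff6cb_lc.Bridge

open Pool.Agent.Work.MP_3ff6cb_lc

/-- The parameter `f 3 G` is computable in polynomial time from the adjacency matrix. -/
theorem Pool.Agent.Results.MP_3ff6cb_lc.PolyTime.result :
    ∃ F : List (List Bool) → ℕ, N68a2faeb.IsPolyTime F ∧
      ∀ (n : ℕ) (G : SimpleGraph (Fin n)), F (adjMat G) = f 3 G := by
  obtain ⟨a, b, h⟩ := exists_algo
  refine ⟨algo a b, isPolyTime_algo a b, fun n G => isLeast_f G ?_⟩
  have := h (adjMat G)
  rwa [length_adjMat] at this
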